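import Pool.Agent.H94.EH.H91.PK.Defs

/-!
# PROJECT PSI (MP_967f73_nt): primes in almost all short intervals, in residue classes

THEOREM (`Hux.lean` / `Blk.lean`): for `X^(1/6+e) ≤ H ≤ X^(1/3)`, `d ≤ (log X)^B`, `(u, d) = 1`,
`∑_{X ≤ x < 2X} |∑_{x < n ≤ x+H, n ≡ u (d)} Λ(n) - H/φ(d)|^2 ≤ X H^2/(log X)^A`.

`L = log X`; `ee t = exp(2 π i t)` (`Pool.Agent.H91.PK.ee`).

* `W f H x` = sum of `f` over the window `(x, x+H]`, `D f H H1 x` = average over the short window minus
  average over the long window;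
* `DP f N t = ∑_{n ≤ N} f(n) n^{2 π i t}`;
* `kf k` for `k = 0, 1, 2` is `1`, `log`, `μ`; `seg k a b` = `kf k` on `[a, b)`, `hi k Y` = `kf k` on `[Y, ∞)`,
  `pc k j = seg k (2^j) (2^(j+1))`, `lot k y w` = `kf k` on `[1, 2^y)` (`k = 0, 1`) or `[1, 2^w)` (`k = 2`);
* `Tp κ y w = ∏ i, lot (κ i) y w` (Dirichlet convolution);
* `tw χ f n = f(n) χ(n)`, `cl d u f n = f(n)` if `n ≡ u (d)`, `0` otherwise.
-/

set_option autoImplicit false

namespace Pool.Agent.H88.PSI

open Finset MeasureTheory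
open Pool.Agent.H91.PK (ee)

/-- the sum of `f` over the window `(x, x + H]` -/
noncomputable def W (f : ℕ → ℂ) (H x : ℕ) : ℂ := ∑ n ∈ Ioc x (x + H), f n

/-- the average over the short window minus the average over the long window -/
noncomputable def D (f : ℕ → ℂ) (H H1 x : ℕ) : ℂ := W f H x / H - W f H1 x / H1

/-- the Dirichlet polynomial `∑_{n ≤ N} f(n) n^{2 π i t}` -/
noncomputable def DP (f : ℕ → ℂ) (N : ℕ) (t : ℝ) : ℂ :=
  ∑ n ∈ Icc 1 N, f n * ee (t * Real.log n)

/-- the second moment `∑_{n ≤ N} |f(n)|^2` -/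
noncomputable def SS (f : ℕ → ℂ) (N : ℕ) : ℝ := ∑ n ∈ Icc 1 N, ‖f n‖ ^ 2

/-- the number of divisors -/
noncomputable def tau (n : ℕ) : ℝ := (n.divisors.card : ℝ)

/-- `1`, `log`, `μ` -/
noncomputable def kf (k : Fin 3) (n : ℕ) : ℝ :=
  if k = 0 then 1 else if k = 1 then Real.log n else ((ArithmeticFunction.moebius n : ℤ) : ℝ)

/-- `kf k` on `[a, b)` -/
noncomputable def seg (k : Fin 3) (a b : ℕ) : ArithmeticFunction ℝ :=
  ⟨fun n => if n ≠ 0 ∧ a ≤ n ∧ n < b then kf k n else 0, by simp⟩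

/-- `kf k` on `[Y, ∞)` -/
noncomputable def hi (k : Fin 3) (Y : ℕ) : ArithmeticFunction ℝ :=
  ⟨fun n => if n ≠ 0 ∧ Y ≤ n then kf k n else 0, by simp⟩

/-- a dyadic piece of `kf k` -/
noncomputable def pc (k : Fin 3) (j : ℕ) : ArithmeticFunction ℝ := seg k (2 ^ j) (2 ^ (j + 1))

/-- the exponent of the upper end of the range of a variable of kind `k` -/
def top (k : Fin 3) (y w : ℕ) : ℕ := if k = 2 then w else y

/-- the truncated function of kind `k` -/
noncomputable def lot (k : Fin 3) (y w : ℕ) : ArithmeticFunction ℝ := seg k 1 (2 ^ top k y w)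

/-- a product of truncated functions -/
noncomputable def Tp {r : ℕ} (κ : Fin r → Fin 3) (y w : ℕ) : ArithmeticFunction ℝ :=
  ∏ i, lot (κ i) y w

/-- a product of dyadic pieces -/
noncomputable def Pp {r : ℕ} (κ : Fin r → Fin 3) (j : Fin r → ℕ) : ArithmeticFunction ℝ :=
  ∏ i, pc (κ i) (j i)

/-- the kinds of the variables in the second term of the Heath-Brown identity -/
def k4 : Fin 4 → Fin 3 := ![1, 0, 2, 2]

/-- the kinds of the variables in the third term of the Heath-Brown identity -/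
def k6 : Fin 6 → Fin 3 := ![1, 0, 0, 2, 2, 2]

/-- the coefficients of type I with a logarithm in the smooth variable -/
noncomputable def cA (w : ℕ) : ArithmeticFunction ℝ :=
  (3 : ℝ) • seg 2 1 (2 ^ w) - (3 : ℝ) • (hi 0 1 * seg 2 1 (2 ^ w) ^ 2)
    + hi 0 1 ^ 2 * seg 2 1 (2 ^ w) ^ 3

/-- the coefficients of type I without a logarithm in the smooth variable -/
noncomputable def cB (y w : ℕ) : ArithmeticFunction ℝ :=
  seg 1 1 (2 ^ y) * (hi 0 1 + seg 0 1 (2 ^ y)) * seg 2 1 (2 ^ w) ^ 3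
    - (3 : ℝ) • (seg 1 1 (2 ^ y) * seg 2 1 (2 ^ w) ^ 2)

/-- the von Mangoldt function -/
noncomputable def La : ArithmeticFunction ℝ := ArithmeticFunction.vonMangoldt

/-- twist by a character -/
noncomputable def tw {d : ℕ} (χ : DirichletCharacter ℂ d) (f : ArithmeticFunction ℝ) :
    ArithmeticFunction ℂ :=
  ⟨fun n => ((f n : ℝ) : ℂ) * χ (n : ZMod d), by simp⟩

/-- restriction to a residue class -/
noncomputable def cl (d u : ℕ) (f : ArithmeticFunction ℝ) (n : ℕ) : ℂ :=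
  if n % d = u % d then ((f n : ℝ) : ℂ) else 0

/-- the number of multiples of `m` in the window in the class `u` modulo `d` -/
noncomputable def cnt (d u H m x : ℕ) : ℝ :=
  (((Ioc x (x + H)).filter (fun n => m ∣ n ∧ n % d = u % d)).card : ℝ)

/-- the error term of `cnt` for `(m, d) = 1` -/
noncomputable def em (d u H m x : ℕ) : ℝ := cnt d u H m x - H / (m * d)

/-- the kernel `∑_{j ≤ H} ee(j θ)` -/
noncomputable def dk (H : ℕ) (θ : ℝ) : ℂ := ∑ j ∈ Icc 1 H, ee (j * θ)

/-- the main term of type I for the cut `k` -/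
noncomputable def Bk (a : ℕ → ℝ) (d k x : ℕ) : ℝ :=
  1 / (d : ℝ) * ∑ m ∈ (Icc 1 (x / k)).filter (fun m => Nat.Coprime m d), a m / m

/-- the difference of the two window averages in the logarithmic variable -/
noncomputable def Gw (f : ℕ → ℂ) (N : ℕ) (hs hl H H1 u : ℝ) : ℂ :=
  ∑ n ∈ Icc 1 N, f n *
    (((if u < Real.log n ∧ Real.log n ≤ u + hs then 1 / H else 0)
      - (if u < Real.log n ∧ Real.log n ≤ u + hl then 1 / H1 else 0) : ℝ) : ℂ)

end Pool.Agent.H88.PSI
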