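import Pool.Agent.H94.EH.M42
import Pool.Agent.H94.EH.M46

/-!
# PSI Ti: the terms of type I

`k = 0`: `D = (W_H/H - Bk) - (W_{H1}/H1 - Bk)`.  `k = 1`: for `n ≤ 3X`, `hi 1 Y n = ∑_{Y ≤ k' ≤ 3X} w_{k'} hi 0 k' n`, `w_Y = log Y`,
`w_{k'} = log k' - log(k'-1)`; so `D(cl d u (hi 1 Y * a)) = ∑ w_{k'} D(cl d u (hi 0 k' * a))` on windows in `(X, 3X]`;
`|·|^2 ≤ (∑ w) ∑ w |·|^2`, `∑ w = log(3X) ≤ 2L`; the case `k = 0` with `A + 3` for every `k' ≥ Y`.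
-/

set_option autoImplicit false

namespace Pool.Agent.H88.PSI

open Finset

private theorem Ti_congr (f g : ℕ → ℂ) (H H1 x N : ℕ) (hH : x + H ≤ N) (hH1 : x + H1 ≤ N)
    (h : ∀ n, n ≤ N → f n = g n) : D f H H1 x = D g H H1 x := by
  unfold D W
  have e1 : ∑ n ∈ Ioc x (x + H), f n = ∑ n ∈ Ioc x (x + H), g n :=
    Finset.sum_congr rfl fun n hn => h n ((Finset.mem_Ioc.mp hn).2.trans hH)
  have e2 : ∑ n ∈ Ioc x (x + H1), f n = ∑ n ∈ Ioc x (x + H1), g n :=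
    Finset.sum_congr rfl fun n hn => h n ((Finset.mem_Ioc.mp hn).2.trans hH1)
  rw [e1, e2]

/-- the weights -/
private noncomputable def Ti_w (Y k : ℕ) : ℝ :=
  if k = Y then Real.log Y else Real.log k - Real.log ((k - 1 : ℕ) : ℝ)

private theorem Ti_w_nonneg (Y k : ℕ) (hY : 1 ≤ Y) (hk : Y ≤ k) : 0 ≤ Ti_w Y k := by
  unfold Ti_w
  split_ifs with h
  · exact Real.log_nonneg (by exact_mod_cast hY)
  · have h1 : Y < k := lt_of_le_of_ne hk (Ne.symm h)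
    have h2 : 1 ≤ k - 1 := by omega
    have h3 : ((k - 1 : ℕ) : ℝ) ≤ k := by exact_mod_cast Nat.sub_le k 1
    have h4 : Real.log ((k - 1 : ℕ) : ℝ) ≤ Real.log k :=
      Real.log_le_log (by exact_mod_cast h2) h3
    linarith only [h4]

private theorem Ti_w_sum (Y b : ℕ) (hb : Y ≤ b) : ∑ k ∈ Icc Y b, Ti_w Y k = Real.log b := by
  induction b, hb using Nat.le_induction with
  | base => simp [Ti_w]
  | succ b hb ih =>
    rw [← Finset.insert_Icc_right_eq_Icc_add_one (by omega), Finset.sum_insert (by simp), ih]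
    have : b + 1 ≠ Y := by omega
    simp [Ti_w, this]

private theorem Ti_hi (Y b N : ℕ) (hb : b ≤ N) :
    hi 1 Y b = ∑ k ∈ Icc Y N, Ti_w Y k * hi 0 k b := by
  have h0 : ∀ k, hi 0 k b = if b ≠ 0 ∧ k ≤ b then 1 else 0 := by
    intro k
    show (if b ≠ 0 ∧ k ≤ b then kf 0 b else 0) = _
    simp [kf]
  have h1 : hi 1 Y b = if b ≠ 0 ∧ Y ≤ b then Real.log b else 0 := by
    show (if b ≠ 0 ∧ Y ≤ b then kf 1 b else 0) = _
    simp [kf]
  rw [h1]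
  simp only [h0]
  by_cases hb0 : b = 0
  · simp [hb0]
  by_cases hY : Y ≤ b
  · rw [if_pos ⟨hb0, hY⟩, ← Ti_w_sum Y b hY]
    have : Icc Y b = (Icc Y N).filter (fun k => k ≤ b) := by
      ext k; simp only [Finset.mem_Icc, Finset.mem_filter]; omega
    rw [this, Finset.sum_filter]
    refine Finset.sum_congr rfl fun k _ => ?_
    by_cases hk : k ≤ b <;> simp [hk, hb0]
  · rw [if_neg (fun h => hY h.2)]
    symm
    refine Finset.sum_eq_zero fun k hk => ?_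
    have : ¬ (b ≠ 0 ∧ k ≤ b) := fun h => hY ((Finset.mem_Icc.mp hk).1.trans h.2)
    rw [if_neg this, mul_zero]

private theorem Ti_mul (Y N n : ℕ) (a : ArithmeticFunction ℝ) (hn : n ≤ N) :
    (hi 1 Y * a) n = ∑ k ∈ Icc Y N, Ti_w Y k * (hi 0 k * a) n := by
  simp only [ArithmeticFunction.mul_apply, Finset.mul_sum]
  rw [Finset.sum_comm]
  refine Finset.sum_congr rfl fun p hp => ?_
  have hp1 : p.1 ≤ N := (Nat.divisor_le (Nat.fst_mem_divisors_of_mem_antidiagonal hp)).trans hn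
  rw [Ti_hi Y p.1 N hp1, Finset.sum_mul]
  exact Finset.sum_congr rfl fun k _ => mul_assoc _ _ _

private theorem Ti_cl (d u Y N n : ℕ) (a : ArithmeticFunction ℝ) (hn : n ≤ N) :
    cl d u (hi 1 Y * a) n = ∑ k ∈ Icc Y N, ((Ti_w Y k : ℝ) : ℂ) * cl d u (hi 0 k * a) n := by
  unfold cl
  by_cases h : n % d = u % d
  · simp only [if_pos h]
    rw [Ti_mul Y N n a hn]
    push_cast
    rfl
  · simp only [if_neg h, mul_zero, Finset.sum_const_zero]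

private theorem Ti_D (d u Y N H H1 x : ℕ) (a : ArithmeticFunction ℝ) (hH : x + H ≤ N)
    (hH1 : x + H1 ≤ N) :
    D (cl d u (hi 1 Y * a)) H H1 x =
      ∑ k ∈ Icc Y N, ((Ti_w Y k : ℝ) : ℂ) * D (cl d u (hi 0 k * a)) H H1 x := by
  rw [Ti_congr _ (fun n => ∑ k ∈ Icc Y N, ((Ti_w Y k : ℝ) : ℂ) * cl d u (hi 0 k * a) n) H H1 x N
    hH hH1 (fun n hn => Ti_cl d u Y N n a hn), d_sum]
  exact Finset.sum_congr rfl fun k _ => d_smul _ _ _ _ _

private theorem Ti_cs (s : Finset ℕ) (w : ℕ → ℝ) (z : ℕ → ℂ) (hw : ∀ i ∈ s, 0 ≤ w i) :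
    ‖∑ i ∈ s, ((w i : ℝ) : ℂ) * z i‖ ^ 2 ≤ (∑ i ∈ s, w i) * ∑ i ∈ s, w i * ‖z i‖ ^ 2 := by
  have h1 : ‖∑ i ∈ s, ((w i : ℝ) : ℂ) * z i‖ ≤ ∑ i ∈ s, w i * ‖z i‖ := by
    refine (norm_sum_le _ _).trans (Finset.sum_le_sum fun i hi => ?_)
    rw [norm_mul, Complex.norm_real, Real.norm_of_nonneg (hw i hi)]
  have h2 : (∑ i ∈ s, w i * ‖z i‖) ^ 2 ≤ (∑ i ∈ s, w i) * ∑ i ∈ s, w i * ‖z i‖ ^ 2 := by
    refine Finset.sum_sq_le_sum_mul_sum_of_sq_le_mul s hw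
      (fun i hi => mul_nonneg (hw i hi) (sq_nonneg _)) (fun i _ => le_of_eq (by ring))
  exact (pow_le_pow_left₀ (norm_nonneg _) h1 2).trans h2

theorem ti (A B : ℕ) : ∃ A0 : ℕ, ∀ A1 : ℕ, A0 ≤ A1 → ∃ X0 : ℕ, ∀ X : ℕ, X0 ≤ X →
    ∀ (d u H H1 Y : ℕ) (k : Fin 3) (a : ArithmeticFunction ℝ), k ≠ 2 → 1 ≤ d →
    (d : ℝ) ≤ Real.log X ^ B → Nat.Coprime u d →
    (X : ℝ) ^ (1 / 6 : ℝ) ≤ H → (H : ℝ) ≤ (X : ℝ) ^ (1 / 3 : ℝ) →
    H1 = ⌊X / Real.log X ^ A1⌋₊ →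
    (X : ℝ) ^ (11 / 24 : ℝ) / 2 ≤ Y → (∀ m, |a m| ≤ 20 * Real.log X * tau m ^ 5) →
    ∑ x ∈ Ico X (2 * X), ‖D (cl d u (hi k Y * a)) H H1 x‖ ^ 2 ≤ X / Real.log X ^ A := by
  obtain ⟨Xs, hs⟩ := ti_short B
  obtain ⟨A0, hl0⟩ := ti_long (A + 3) B
  refine ⟨A0, fun A1 hA1 => ?_⟩
  obtain ⟨Xl, hl⟩ := hl0 A1 hA1
  obtain ⟨X1, h1⟩ := Pool.Agent.H80.LV.log_pow_le (1 / 50) 1 (by norm_num) one_pos (A + 3)
  obtain ⟨X2, h2⟩ := Pool.Agent.H80.LV.log_ge 100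
  refine ⟨max (max Xs Xl) (max X1 (max X2 1)), fun X hX => ?_⟩
  have hXs : Xs ≤ X := (le_max_left _ _).trans ((le_max_left _ _).trans hX)
  have hXl : Xl ≤ X := (le_max_right _ _).trans ((le_max_left _ _).trans hX)
  have hX1 : X1 ≤ X := (le_max_left _ _).trans ((le_max_right _ _).trans hX)
  have hX2 : X2 ≤ X := (le_max_left _ _).trans ((le_max_right _ _).trans
    ((le_max_right _ _).trans hX))
  have hX3 : 1 ≤ X := (le_max_right _ _).trans ((le_max_right _ _).trans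
    ((le_max_right _ _).trans hX))
  intro d u H H1 Y k a hk2 hd hdL hu hH hH' hH1 hY ha
  set L : ℝ := Real.log X with hL
  have hL100 : 100 ≤ L := h2 X hX2
  have hXr : (1 : ℝ) ≤ X := by exact_mod_cast hX3
  have hX0 : (0 : ℝ) < X := by linarith only [hXr]
  have hpow := h1 X hX1
  rw [one_mul] at hpow
  have hLp : 0 < L ^ (A + 3) := by positivity
  -- the basic bound
  have hshort : (X : ℝ) ^ (49 / 50 : ℝ) ≤ X / L ^ (A + 3) := by
    rw [le_div_iff₀ hLp]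
    calc (X : ℝ) ^ (49 / 50 : ℝ) * L ^ (A + 3) ≤ (X : ℝ) ^ (49 / 50 : ℝ) * (X : ℝ) ^ (1 / 50 : ℝ) :=
          mul_le_mul_of_nonneg_left hpow (by positivity)
      _ = X := by
          rw [← Real.rpow_add hX0]
          norm_num
  have hY0 : 1 ≤ Y := by
    rw [Nat.one_le_iff_ne_zero]
    rintro rfl
    have : 0 < (X : ℝ) ^ (11 / 24 : ℝ) / 2 := by positivity
    rw [Nat.cast_zero] at hY
    linarith only [hY, this]
  have hbase : ∀ k' : ℕ, Y ≤ k' →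
      ∑ x ∈ Ico X (2 * X), ‖D (cl d u (hi 0 k' * a)) H H1 x‖ ^ 2 ≤ 4 * (X / L ^ (A + 3)) := by
    intro k' hk'
    have hk'' : (X : ℝ) ^ (11 / 24 : ℝ) / 2 ≤ k' := hY.trans (by exact_mod_cast hk')
    have e1 := hs X hXs d u H k' a hd hdL hu hH hH' hk'' ha
    have e2 := hl X hXl d u H1 k' a hd hdL hu hH1 hk'' ha
    have e3 : ∀ x ∈ Ico X (2 * X), ‖D (cl d u (hi 0 k' * a)) H H1 x‖ ^ 2 ≤
        2 * ‖W (cl d u (hi 0 k' * a)) H x / H - ((Bk a d k' x : ℝ) : ℂ)‖ ^ 2 +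
        2 * ‖W (cl d u (hi 0 k' * a)) H1 x / H1 - ((Bk a d k' x : ℝ) : ℂ)‖ ^ 2 := by
      intro x _
      have e4 : D (cl d u (hi 0 k' * a)) H H1 x =
          (W (cl d u (hi 0 k' * a)) H x / H - ((Bk a d k' x : ℝ) : ℂ)) -
          (W (cl d u (hi 0 k' * a)) H1 x / H1 - ((Bk a d k' x : ℝ) : ℂ)) := by
        unfold D; ring
      rw [e4]
      have e5 := norm_sub_le (W (cl d u (hi 0 k' * a)) H x / H - ((Bk a d k' x : ℝ) : ℂ))
        (W (cl d u (hi 0 k' * a)) H1 x / H1 - ((Bk a d k' x : ℝ) : ℂ))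
      have e6 := pow_le_pow_left₀ (norm_nonneg _) e5 2
      nlinarith only [e6, sq_nonneg (‖W (cl d u (hi 0 k' * a)) H x / H - ((Bk a d k' x : ℝ) : ℂ)‖ -
        ‖W (cl d u (hi 0 k' * a)) H1 x / H1 - ((Bk a d k' x : ℝ) : ℂ)‖)]
    have e7 := Finset.sum_le_sum e3
    rw [Finset.sum_add_distrib, ← Finset.mul_sum, ← Finset.mul_sum] at e7
    have e1' := e1.trans hshort
    linarith only [hshort, e1, e2, e7]
  have hE : 0 ≤ (X : ℝ) / L ^ (A + 3) := by positivity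
  have hsplit : (X : ℝ) / L ^ A = X / L ^ (A + 3) * L ^ 3 := by
    rw [pow_add]
    field_simp
  have hk : k = 0 ∨ k = 1 := by
    fin_cases k <;> simp_all
  rcases hk with rfl | rfl
  · refine (hbase Y le_rfl).trans ?_
    rw [hsplit, mul_comm (4 : ℝ)]
    refine mul_le_mul_of_nonneg_left ?_ hE
    nlinarith only [hL100, pow_le_pow_left₀ (by norm_num : (0 : ℝ) ≤ 100) hL100 3]
  · -- windows
    have hHX : H ≤ X := by
      have : (H : ℝ) ≤ X := hH'.trans (by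
        calc (X : ℝ) ^ (1 / 3 : ℝ) ≤ (X : ℝ) ^ (1 : ℝ) :=
              Real.rpow_le_rpow_of_exponent_le hXr (by norm_num)
          _ = X := Real.rpow_one _)
      exact_mod_cast this
    have hH1X : H1 ≤ X := by
      rw [hH1]
      refine Nat.floor_le_of_le ?_
      exact div_le_self hX0.le (one_le_pow₀ (by linarith only [hL100]))
    have hD : ∀ x ∈ Ico X (2 * X), ‖D (cl d u (hi 1 Y * a)) H H1 x‖ ^ 2 ≤
        (∑ k ∈ Icc Y (3 * X), Ti_w Y k) *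
          ∑ k ∈ Icc Y (3 * X), Ti_w Y k * ‖D (cl d u (hi 0 k * a)) H H1 x‖ ^ 2 := by
      intro x hx
      have hx' := (Finset.mem_Ico.mp hx).2
      rw [Ti_D d u Y (3 * X) H H1 x a (by omega) (by omega)]
      exact Ti_cs _ _ _ fun i hi => Ti_w_nonneg Y i hY0 (Finset.mem_Icc.mp hi).1
    have hwsum : ∑ k ∈ Icc Y (3 * X), Ti_w Y k ≤ 2 * L := by
      by_cases hY3 : Y ≤ 3 * X
      · rw [Ti_w_sum Y (3 * X) hY3]
        push_cast
        rw [Real.log_mul (by norm_num) hX0.ne']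
        have : Real.log 3 ≤ 3 - 1 := Real.log_le_sub_one_of_pos (by norm_num)
        linarith only [hL100, this]
      · rw [Finset.Icc_eq_empty (by omega), Finset.sum_empty]
        linarith only [hL100]
    have hw0 : 0 ≤ ∑ k ∈ Icc Y (3 * X), Ti_w Y k :=
      Finset.sum_nonneg fun i hi => Ti_w_nonneg Y i hY0 (Finset.mem_Icc.mp hi).1
    calc ∑ x ∈ Ico X (2 * X), ‖D (cl d u (hi 1 Y * a)) H H1 x‖ ^ 2
        ≤ ∑ x ∈ Ico X (2 * X), (∑ k ∈ Icc Y (3 * X), Ti_w Y k) *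
          ∑ k ∈ Icc Y (3 * X), Ti_w Y k * ‖D (cl d u (hi 0 k * a)) H H1 x‖ ^ 2 :=
          Finset.sum_le_sum hD
      _ = (∑ k ∈ Icc Y (3 * X), Ti_w Y k) * ∑ k ∈ Icc Y (3 * X), Ti_w Y k *
          ∑ x ∈ Ico X (2 * X), ‖D (cl d u (hi 0 k * a)) H H1 x‖ ^ 2 := by
          rw [← Finset.mul_sum, Finset.sum_comm]
          congr 1
          exact Finset.sum_congr rfl fun k _ => (Finset.mul_sum _ _ _).symm
      _ ≤ (∑ k ∈ Icc Y (3 * X), Ti_w Y k) * ∑ k ∈ Icc Y (3 * X), Ti_w Y k *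
          (4 * (X / L ^ (A + 3))) := by
          refine mul_le_mul_of_nonneg_left (Finset.sum_le_sum fun k hk => ?_) hw0
          have hk' := (Finset.mem_Icc.mp hk).1
          exact mul_le_mul_of_nonneg_left (hbase k hk') (Ti_w_nonneg Y k hY0 hk')
      _ = (∑ k ∈ Icc Y (3 * X), Ti_w Y k) ^ 2 * (4 * (X / L ^ (A + 3))) := by
          rw [← Finset.sum_mul]; ring
      _ ≤ (2 * L) ^ 2 * (4 * (X / L ^ (A + 3))) := by
          refine mul_le_mul_of_nonneg_right (pow_le_pow_left₀ hw0 hwsum 2) (by positivity)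
      _ = X / L ^ (A + 3) * (16 * L ^ 2) := by ring
      _ ≤ X / L ^ (A + 3) * L ^ 3 := by
          refine mul_le_mul_of_nonneg_left ?_ hE
          nlinarith only [hL100, sq_nonneg L]
      _ = X / L ^ A := hsplit.symm

end Pool.Agent.H88.PSI
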